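import Mathlib

/-!
# Squad PP, part BN: module BG1, the group theory in the central extension
-/

set_option autoImplicit false

namespace Pool.Agent.PP.BN.H27

open Subgroup

/-- A group of order prime to `ℓ` has no nontrivial element of `ℓ`-power order. -/
theorem eq_one_of_pow {ℓ : ℕ} (hℓ : ℓ.Prime) {G : Type} [Group G] {N : Subgroup G}
    (hN : ¬ ℓ ∣ Nat.card N) {x : G} (hx : x ∈ N) {k : ℕ} (hk : x ^ (ℓ ^ k) = 1) : x = 1 := by
  have h1 : orderOf x ∣ Nat.card N := by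
    have := orderOf_dvd_natCard (⟨x, hx⟩ : N)
    rwa [← orderOf_injective N.subtype N.subtype_injective] at this
  have h2 : orderOf x ∣ ℓ ^ k := orderOf_dvd_of_pow_eq_one hk
  have h3 : Nat.Coprime (Nat.card N) (ℓ ^ k) :=
    ((Nat.Prime.coprime_iff_not_dvd hℓ).mpr hN).symm.pow_right k
  exact orderOf_eq_one_iff.mp (Nat.dvd_one.mp (h3 ▸ Nat.dvd_gcd h1 h2))

/-- The lift of an `ℓ`-subgroup to a central extension by a group of order prime to `ℓ`. -/
theorem exists_lift {ℓ : ℕ} [Fact ℓ.Prime] {S G : Type} [Group S] [Group G] [Finite G]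
    (π : G →* S) (hπ : Function.Surjective π) (hc : π.ker ≤ center G)
    (hZ : ¬ ℓ ∣ Nat.card π.ker) (US : Subgroup S) (hUS : IsPGroup ℓ US) :
    ∃ U : Subgroup G, IsPGroup ℓ U ∧ (∀ u ∈ U, π u ∈ US) ∧ (∀ s ∈ US, ∃ u ∈ U, π u = s) ∧
      (∀ u ∈ U, π u = 1 → u = 1) ∧ ∀ x, π x ∈ US → (∃ k, x ^ (ℓ ^ k) = 1) → x ∈ U := by
  have hℓ : ℓ.Prime := Fact.out
  have : Finite S := Finite.of_surjective π hπ
  obtain ⟨Q⟩ : Nonempty (Sylow ℓ (US.comap π)) := inferInstance
  have hsurj := MonoidHom.subgroupComap_surjective_of_surjective π US hπ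
  have hidx : ((Q : Subgroup (US.comap π)).map (π.subgroupComap US)).index = 1 := by
    obtain ⟨n, hn⟩ := hUS.index ((Q : Subgroup (US.comap π)).map (π.subgroupComap US))
    have h1 := (Q : Subgroup (US.comap π)).index_map_dvd hsurj
    rcases Nat.eq_zero_or_pos n with h0 | h0
    · rw [hn, h0, pow_zero]
    · exfalso
      apply Q.not_dvd_index
      refine dvd_trans ?_ h1
      rw [hn]
      exact dvd_pow_self ℓ h0.ne'
  have htop := index_eq_one.mp hidx
  have hp : ∀ u ∈ (Q : Subgroup (US.comap π)).map (US.comap π).subtype, ∃ k, u ^ (ℓ ^ k) = 1 := by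
    intro u hu
    obtain ⟨k, hk⟩ := (Q.isPGroup'.map (US.comap π).subtype) ⟨u, hu⟩
    exact ⟨k, congrArg Subtype.val hk⟩
  have hone : ∀ u ∈ (Q : Subgroup (US.comap π)).map (US.comap π).subtype, π u = 1 → u = 1 := by
    intro u hu h1
    obtain ⟨k, hk⟩ := hp u hu
    exact eq_one_of_pow hℓ hZ (MonoidHom.mem_ker.mpr h1) hk
  have hsur : ∀ s ∈ US, ∃ u ∈ (Q : Subgroup (US.comap π)).map (US.comap π).subtype, π u = s := by
    intro s hs
    have h1 : (⟨s, hs⟩ : US) ∈ (Q : Subgroup (US.comap π)).map (π.subgroupComap US) := by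
      rw [htop]
      exact mem_top _
    obtain ⟨q, hq, hqs⟩ := mem_map.mp h1
    exact ⟨q, mem_map.mpr ⟨q, hq, rfl⟩, congrArg Subtype.val hqs⟩
  refine ⟨(Q : Subgroup (US.comap π)).map (US.comap π).subtype, Q.isPGroup'.map _, ?_, hsur,
    hone, ?_⟩
  · intro u hu
    obtain ⟨q, _, rfl⟩ := mem_map.mp hu
    exact q.2
  · rintro x hx ⟨k, hk⟩
    obtain ⟨u, hu, hux⟩ := hsur _ hx
    obtain ⟨j, hj⟩ := hp u hu
    have hz : u⁻¹ * x ∈ π.ker := by
      rw [MonoidHom.mem_ker, map_mul, map_inv, hux, inv_mul_cancel]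
    have hcom : Commute u (u⁻¹ * x) := (mem_center_iff.mp (hc hz) u)
    have h1 : x ^ (ℓ ^ (k + j)) = 1 := by
      rw [pow_add, pow_mul, hk, one_pow]
    have h2 : u ^ (ℓ ^ (k + j)) = 1 := by
      rw [add_comm, pow_add, pow_mul, hj, one_pow]
    have h3 : (u⁻¹ * x) ^ (ℓ ^ (k + j)) = 1 := by
      have h4 := hcom.mul_pow (ℓ ^ (k + j))
      rw [mul_inv_cancel_left, h1, h2, one_mul] at h4
      exact h4.symm
    have h5 := eq_one_of_pow hℓ hZ hz h3
    rw [inv_mul_eq_one] at h5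
    rw [← h5]
    exact hu

/-- The data of a group of rank one. -/
structure Dat (ℓ : ℕ) {S : Type} [Group S] {Ω : Type} [MulAction S Ω] (o p : Ω)
    (US : Subgroup S) : Prop where
  faith : ∀ s : S, (∀ x : Ω, s • x = x) → s = 1
  ne : o ≠ p
  swap : ∃ s : S, s • o = p ∧ s • p = o
  pU : IsPGroup ℓ US
  fix : ∀ u ∈ US, u • o = o
  free : ∀ u ∈ US, u • p = p → u = 1
  trans : ∀ x : Ω, x ≠ o → ∃ u ∈ US, u • p = x
  norm : ∀ s : S, s • o = o → ∀ u ∈ US, s * u * s⁻¹ ∈ US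
  cyc : IsCyclic (MulAction.stabilizer S o ⊓ MulAction.stabilizer S p : Subgroup S)
  cop : ¬ ℓ ∣ Nat.card (MulAction.stabilizer S o ⊓ MulAction.stabilizer S p : Subgroup S)

/-- the result in the central extension -/
theorem main {ℓ : ℕ} (hℓ : ℓ.Prime) {S G : Type} [Group S] [Group G] [Finite G]
    {Ω : Type} [MulAction S Ω] {o p : Ω} {US : Subgroup S} (d : Dat ℓ o p US)
    (hab : ∃ x y : S, x * y ≠ y * x) (π : G →* S) (hπ : Function.Surjective π)
    (hc : π.ker ≤ center G) (hZ : ¬ ℓ ∣ Nat.card π.ker) :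
    ∃ (U T : Subgroup G) (n : G), π.ker ≤ T ∧ U ≠ ⊥ ∧ IsPGroup ℓ U ∧
      (∀ t ∈ T, ∀ u ∈ U, t * u * t⁻¹ ∈ U) ∧ (∀ a ∈ T, ∀ b ∈ T, a * b = b * a) ∧
      (¬ ℓ ∣ Nat.card T) ∧ (∀ t, t ∈ T ↔ n * t * n⁻¹ ∈ T) ∧ (n * n ∈ T) ∧
      (∀ m : G, (∃ u ∈ U, ∃ t ∈ T, m = u * t) ∨
        (∃ u ∈ U, ∃ t ∈ T, ∃ u' ∈ U, m = u * n * t * u')) ∧
      (∀ u ∈ U, ∀ u' ∈ U, ∀ t ∈ T, n * u * n⁻¹ = u' * t → u = 1) ∧
      (∀ m : G, m ∈ normalizer (U : Set G) ↔ ∃ u ∈ U, ∃ t ∈ T, m = u * t) ∧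
      (¬ ℓ ∣ U.index) ∧
      (∀ m : G, ∀ x ∈ U, x ≠ 1 → m * x * m⁻¹ ∈ U → m ∈ normalizer (U : Set G)) ∧
      (∀ m : G, (∀ g : G, g⁻¹ * m * g ∈ normalizer (U : Set G)) → m ∈ π.ker) := by
  have : Fact ℓ.Prime := ⟨hℓ⟩
  obtain ⟨U, pU, hU, hsur, hone, hchar⟩ := exists_lift π hπ hc hZ US d.pU
  obtain ⟨w, hwo, hwp⟩ := d.swap
  obtain ⟨n, hn⟩ := hπ w
  obtain ⟨T, hT⟩ : ∃ T : Subgroup G, T =
    (MulAction.stabilizer S o ⊓ MulAction.stabilizer S p).comap π := ⟨_, rfl⟩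
  have memT : ∀ t, t ∈ T ↔ π t • o = o ∧ π t • p = p := by
    intro t
    rw [hT, mem_comap, mem_inf, MulAction.mem_stabilizer_iff, MulAction.mem_stabilizer_iff]
  have hpow : ∀ u ∈ U, ∃ k, u ^ (ℓ ^ k) = 1 := by
    intro u hu
    obtain ⟨k, hk⟩ := pU ⟨u, hu⟩
    exact ⟨k, congrArg Subtype.val hk⟩
  have hUo : ∀ u ∈ U, π u • o = o := fun u hu => d.fix _ (hU u hu)
  have hUp : ∀ u ∈ U, π u • p = p → u = 1 := fun u hu h =>
    hone u hu (d.free _ (hU u hu) h)
  have hwo' : w⁻¹ • o = p := by rw [inv_smul_eq_iff, hwp]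
  have hwp' : w⁻¹ • p = o := by rw [inv_smul_eq_iff, hwo]
  -- the normaliser contains the stabiliser
  have hconj : ∀ g : G, π g • o = o → ∀ u ∈ U, g * u * g⁻¹ ∈ U := by
    intro g hg u hu
    apply hchar
    · rw [map_mul, map_mul, map_inv]
      exact d.norm _ hg _ (hU u hu)
    · obtain ⟨k, hk⟩ := hpow u hu
      exact ⟨k, by rw [conj_pow, hk, mul_one, mul_inv_cancel]⟩
  have hinvo : ∀ g : G, π g • o = o → π g⁻¹ • o = o := by
    intro g hg
    rw [map_inv, inv_smul_eq_iff, hg]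
  have hnorm1 : ∀ g : G, π g • o = o → g ∈ normalizer (U : Set G) := by
    intro g hg
    rw [mem_normalizer_iff]
    intro x
    constructor
    · exact hconj g hg x
    · intro hx
      have := hconj g⁻¹ (hinvo g hg) _ hx
      rw [inv_inv] at this
      have h2 : g⁻¹ * (g * x * g⁻¹) * g = x := by group
      rwa [h2] at this
  -- nontrivial elements of `U` fix only `o`
  have hfix : ∀ u ∈ U, u ≠ 1 → ∀ x : Ω, π u • x = x → x = o := by
    intro u hu hu1 x hx
    by_contra hxo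
    obtain ⟨s, hs, hsx⟩ := d.trans x hxo
    obtain ⟨v, hv, rfl⟩ := hsur s hs
    apply hu1
    have h1 : v⁻¹ * u * v = 1 := by
      apply hUp _ (U.mul_mem (U.mul_mem (U.inv_mem hv) hu) hv)
      rw [map_mul, map_mul, map_inv, mul_smul, mul_smul, hsx, hx, inv_smul_eq_iff, hsx]
    have h2 : u = v * (v⁻¹ * u * v) * v⁻¹ := by group
    rw [h2, h1, mul_one, mul_inv_cancel]
  have hti : ∀ m : G, ∀ x ∈ U, x ≠ 1 → m * x * m⁻¹ ∈ U → π m • o = o := by
    intro m x hx hx1 hmx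
    have h1 := hUo _ hmx
    rw [map_mul, map_mul, map_inv, mul_smul, mul_smul, smul_eq_iff_eq_inv_smul] at h1
    have h2 := hfix x hx hx1 _ h1
    rw [inv_smul_eq_iff] at h2
    exact h2.symm
  have hUne : U ≠ ⊥ := by
    intro h0
    have hpt : ∀ x : Ω, x = o ∨ x = p := by
      intro x
      by_cases hx : x = o
      · exact Or.inl hx
      · right
        obtain ⟨s, hs, hsx⟩ := d.trans x hx
        obtain ⟨v, hv, rfl⟩ := hsur s hs
        rw [h0, mem_bot] at hv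
        rw [← hsx, hv, map_one, one_smul]
    have hcase : ∀ s : S, (s • o = o ∧ s • p = p) ∨ (s • o = p ∧ s • p = o) := by
      intro s
      rcases hpt (s • o) with h1 | h1 <;> rcases hpt (s • p) with h2 | h2
      · exact absurd (MulAction.injective s (h1.trans h2.symm)) d.ne
      · exact Or.inl ⟨h1, h2⟩
      · exact Or.inr ⟨h1, h2⟩
      · exact absurd (MulAction.injective s (h1.trans h2.symm)) d.ne
    obtain ⟨x, y, hxy⟩ := hab
    apply hxy
    have h1 : (y * x)⁻¹ * (x * y) = 1 := by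
      apply d.faith
      intro a
      rw [mul_smul, inv_smul_eq_iff, mul_smul, mul_smul]
      rcases hpt a with rfl | rfl
      · rcases hcase x with ⟨x1, x2⟩ | ⟨x1, x2⟩ <;> rcases hcase y with ⟨y1, y2⟩ | ⟨y1, y2⟩ <;>
          simp only [x1, x2, y1, y2]
      · rcases hcase x with ⟨x1, x2⟩ | ⟨x1, x2⟩ <;> rcases hcase y with ⟨y1, y2⟩ | ⟨y1, y2⟩ <;>
          simp only [x1, x2, y1, y2]
    rw [inv_mul_eq_one] at h1
    exact h1.symm
  have hnorm : ∀ m : G, m ∈ normalizer (U : Set G) ↔ π m • o = o := by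
    intro m
    constructor
    · intro hm
      obtain ⟨u, hu, hu1⟩ := (Subgroup.ne_bot_iff_exists_ne_one).mp hUne |>.elim
        fun u hu => (⟨u.1, u.2, fun h => hu (Subtype.ext h)⟩ : ∃ u, u ∈ U ∧ u ≠ 1)
      exact hti m u hu hu1 ((mem_normalizer_iff.mp hm u).mp hu)
    · exact hnorm1 m
  have hsplit : ∀ m : G, π m • o = o → ∃ u ∈ U, ∃ t ∈ T, m = u * t := by
    intro m hm
    have hne : π m • p ≠ o := by
      intro h
      exact d.ne (MulAction.injective (π m) (hm.trans h.symm))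
    obtain ⟨s, hs, hsx⟩ := d.trans _ hne
    obtain ⟨u, hu, rfl⟩ := hsur s hs
    refine ⟨u, hu, u⁻¹ * m, (memT _).mpr ⟨?_, ?_⟩, by group⟩
    · rw [map_mul, map_inv, mul_smul, hm, inv_smul_eq_iff, hUo u hu]
    · rw [map_mul, map_inv, mul_smul, ← hsx, inv_smul_smul]
  have hsplit' : ∀ m : G, (∃ u ∈ U, ∃ t ∈ T, m = u * t) → π m • o = o := by
    rintro m ⟨u, hu, t, ht, rfl⟩
    rw [map_mul, mul_smul, ((memT t).mp ht).1, hUo u hu]
  have hTU : ∀ t ∈ T, ∀ u ∈ U, t * u * t⁻¹ ∈ U := fun t ht u hu =>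
    hconj t ((memT t).mp ht).1 u hu
  have hTcop : ¬ ℓ ∣ Nat.card T := by
    intro hdvd
    obtain ⟨x, hx⟩ := exists_prime_orderOf_dvd_card' (G := T) ℓ hdvd
    have hx1 : (x : G) ^ (ℓ ^ 1) = 1 := by
      have := pow_orderOf_eq_one x
      rw [hx] at this
      rw [pow_one]
      exact congrArg Subtype.val this
    have h1 : π x ∈ (MulAction.stabilizer S o ⊓ MulAction.stabilizer S p : Subgroup S) := by
      rw [mem_inf, MulAction.mem_stabilizer_iff, MulAction.mem_stabilizer_iff]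
      exact (memT x).mp x.2
    have h2 : π x = 1 := by
      refine eq_one_of_pow hℓ d.cop h1 (k := 1) ?_
      rw [← map_pow, hx1, map_one]
    have h3 := eq_one_of_pow hℓ hZ (MonoidHom.mem_ker.mpr h2) hx1
    have h4 : x = 1 := Subtype.ext h3
    rw [h4, orderOf_one] at hx
    exact hℓ.one_lt.ne hx
  refine ⟨U, T, n, ?_, hUne, pU, hTU, ?_, hTcop, ?_, ?_, ?_, ?_, ?_, ?_, ?_, ?_⟩
  · intro z hz
    rw [MonoidHom.mem_ker] at hz
    rw [memT, hz, one_smul, one_smul]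
    exact ⟨rfl, rfl⟩
  · -- `T` is abelian
    have := d.cyc
    intro a ha b hb
    rw [hT] at ha hb
    have h0 := MonoidHom.isMulCommutative_of_isCyclic_of_ker_le_center
      (π.subgroupComap (MulAction.stabilizer S o ⊓ MulAction.stabilizer S p)) ?_
    · have h1 := h0.is_comm.comm ⟨a, ha⟩ ⟨b, hb⟩
      exact congrArg Subtype.val h1
    · intro z hz
      have hz' : π z = 1 := congrArg Subtype.val (MonoidHom.mem_ker.mp hz)
      rw [mem_center_iff]
      intro g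
      exact Subtype.ext (mem_center_iff.mp (hc (MonoidHom.mem_ker.mpr hz')) g)
  · intro t
    rw [memT, memT, map_mul, map_mul, map_inv, hn, mul_smul, mul_smul, mul_smul, mul_smul, hwo',
      hwp', smul_eq_iff_eq_inv_smul w, smul_eq_iff_eq_inv_smul w, hwo', hwp']
    exact and_comm
  · rw [memT, map_mul, hn, mul_smul, mul_smul, hwo, hwp, hwo]
    exact ⟨rfl, rfl⟩
  · intro m
    by_cases hm : π m • o = o
    · exact Or.inl (hsplit m hm)
    · right
      obtain ⟨s, hs, hsx⟩ := d.trans _ hm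
      obtain ⟨u, hu, rfl⟩ := hsur s hs
      have h1 : π ((u * n)⁻¹ * m)⁻¹ • o = o := by
        rw [mul_inv_rev, inv_inv, map_mul, map_mul, map_inv, hn, mul_smul, mul_smul, hwo, hsx,
          inv_smul_smul]
      obtain ⟨u', hu', t, ht, h2⟩ := hsplit _ h1
      refine ⟨u, hu, t⁻¹, T.inv_mem ht, u'⁻¹, U.inv_mem hu', ?_⟩
      have h3 : m = u * n * (((u * n)⁻¹ * m)⁻¹)⁻¹ := by group
      rw [h3, h2]
      group
  · intro u hu u' hu' t ht h
    apply hUp u hu
    have h1 : π (n * u * n⁻¹) • o = o := hsplit' _ ⟨u', hu', t, ht, h⟩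
    rw [map_mul, map_mul, map_inv, hn, mul_smul, mul_smul, hwo', smul_eq_iff_eq_inv_smul,
      hwo'] at h1
    exact h1
  · intro m
    rw [hnorm]
    exact ⟨hsplit m, hsplit' m⟩
  · -- the index
    intro hdvd
    obtain ⟨k, hk⟩ := IsPGroup.iff_card.mp pU
    have h1 : ℓ ^ (k + 1) ∣ Nat.card G := by
      rw [← U.card_mul_index, hk, pow_succ]
      exact Nat.mul_dvd_mul_left _ hdvd
    have h2 := Sylow.prime_dvd_card_quotient_normalizer h1 hk
    apply hTcop
    refine h2.trans ?_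
    have hTN : ∀ t : T, (t : G) ∈ normalizer (U : Set G) := fun t =>
      hnorm1 t ((memT t).mp t.2).1
    have hnor : (U.comap (normalizer (U : Set G)).subtype).Normal := normal_in_normalizer
    refine card_dvd_of_surjective ((QuotientGroup.mk' (U.comap
      (normalizer (U : Set G)).subtype)).comp (inclusion (fun t ht => hTN ⟨t, ht⟩))) ?_
    intro q
    obtain ⟨g, rfl⟩ := QuotientGroup.mk'_surjective _ q
    obtain ⟨u, hu, t, ht, hg⟩ := hsplit g ((hnorm g).mp g.2)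
    refine ⟨⟨t, ht⟩, ?_⟩
    rw [MonoidHom.comp_apply]
    change (QuotientGroup.mk _ : _ ⧸ (U.comap (normalizer (U : Set G)).subtype)) =
      QuotientGroup.mk _
    rw [QuotientGroup.eq, mem_comap]
    change t⁻¹ * (g : G) ∈ U
    rw [hg, ← mul_assoc]
    have h3 := hTU t⁻¹ (T.inv_mem ht) u hu
    rwa [inv_inv] at h3
  · intro m x hx hx1 hmx
    exact hnorm1 m (hti m x hx hx1 hmx)
  · intro m hm
    rw [MonoidHom.mem_ker]
    apply d.faith
    have h1 : ∀ g : G, π m • (π g • o) = π g • o := by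
      intro g
      have h2 := (hnorm _).mp (hm g)
      rw [map_mul, map_mul, map_inv, mul_smul, mul_smul, inv_smul_eq_iff] at h2
      exact h2
    intro x
    by_cases hx : x = o
    · have := h1 1
      rwa [map_one, one_smul, ← hx] at this
    · obtain ⟨s, hs, hsx⟩ := d.trans x hx
      obtain ⟨u, hu, rfl⟩ := hsur s hs
      have := h1 (u * n)
      rwa [map_mul, hn, mul_smul, hwo, hsx] at this

end Pool.Agent.PP.BN.H27
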