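import Pool.Agent.Helper66_BN.Stmts
import Pool.Agent.Helper27_BN.Core

/-!
# Squad PP, part BN: module BG1
-/

set_option autoImplicit false

namespace Pool.Agent.PP.BN.H27

open Subgroup Pool.Agent.Helper51_AWC

theorem center_cop {ℓ : ℕ} (hℓ : ℓ.Prime) {D : Type} [Group D] [Finite D]
    (h0 : opCore ℓ D = ⊥) : ¬ ℓ ∣ Nat.card (center D) := by
  have : Fact ℓ.Prime := ⟨hℓ⟩
  intro hdvd
  obtain ⟨z, hz⟩ := exists_prime_orderOf_dvd_card' (G := center D) ℓ hdvd
  have hz' : orderOf (z : D) = ℓ := by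
    rw [← hz]
    exact orderOf_injective (center D).subtype (center D).subtype_injective z
  have hnor : (zpowers (z : D)).Normal := by
    refine ⟨fun x hx g => ?_⟩
    have hx' : x ∈ center D := (zpowers_le.mpr z.2) hx
    have h1 := mem_center_iff.mp hx' g
    rw [h1, mul_inv_cancel_right]
    exact hx
  have hp : IsPGroup ℓ (zpowers (z : D)) := by
    refine IsPGroup.of_card (n := 1) ?_
    rw [Nat.card_zpowers, hz', pow_one]
  have h1 : zpowers (z : D) ≤ opCore ℓ D := le_sSup ⟨hnor, hp⟩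
  rw [h0, le_bot_iff, zpowers_eq_bot] at h1
  rw [h1, orderOf_one] at hz'
  exact hℓ.one_lt.ne hz'

theorem g1 : G1Stmt := by
  intro ℓ hℓ S _ _ hR hab D _ _ h0 M hM hZM π hπ hker
  obtain ⟨Ω, _, _, o, p, US, a1, a2, a3, a4, a5, a6, a7, a8, a9, a10⟩ := hR
  have d : Dat ℓ o p US := ⟨a1, a2, a3, a4, a5, a6, a7, a8, a9, a10⟩
  have hc : π.ker ≤ center M := by
    intro m hm
    have h1 := (hker m).mp (MonoidHom.mem_ker.mp hm)
    rw [mem_center_iff]
    intro g
    exact Subtype.ext (mem_center_iff.mp h1 g)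
  have hmap : π.ker.map M.subtype = center D := by
    ext x
    constructor
    · intro hx
      obtain ⟨m, hm, rfl⟩ := mem_map.mp hx
      exact (hker m).mp (MonoidHom.mem_ker.mp hm)
    · intro hx
      exact mem_map.mpr ⟨⟨x, hZM hx⟩, MonoidHom.mem_ker.mpr ((hker _).mpr hx), rfl⟩
  have hZ : ¬ ℓ ∣ Nat.card π.ker := by
    have h1 := center_cop hℓ h0
    rw [← hmap] at h1
    intro h2
    apply h1
    have h3 : Nat.card (π.ker.map M.subtype) = Nat.card π.ker :=
      Subgroup.card_map_of_injective M.subtype_injective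
    rw [h3]
    exact h2
  obtain ⟨U, T, n, b1, b2, b3, b4, b5, b6, b7, b8, b9, b10, b11, b12, b13, b14⟩ :=
    main hℓ d hab π hπ hc hZ
  have hU : (U.map M.subtype).subgroupOf M = U := comap_map_eq_self_of_injective
    M.subtype_injective U
  have hT : (T.map M.subtype).subgroupOf M = T := comap_map_eq_self_of_injective
    M.subtype_injective T
  have hmem : ∀ m : M, (m : D) ∈ U.map M.subtype ↔ m ∈ U := by
    intro m
    constructor
    · intro h
      rw [← hU]
      exact h
    · intro h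
      exact mem_map.mpr ⟨m, h, rfl⟩
  have hn : ∀ m : M, (m : D) ∈ normalizer ((U.map M.subtype : Subgroup D) : Set D) ↔
      m ∈ normalizer (U : Set M) := by
    intro m
    rw [mem_normalizer_iff, mem_normalizer_iff]
    constructor
    · intro h x
      have := h x
      rw [hmem] at this
      rw [this, ← hmem]
      rfl
    · intro h x
      constructor
      · intro hx
        obtain ⟨y, hy, rfl⟩ := mem_map.mp hx
        exact mem_map.mpr ⟨m * y * m⁻¹, (h y).mp hy, rfl⟩
      · intro hx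
        obtain ⟨y, hy, hyx⟩ := mem_map.mp hx
        refine mem_map.mpr ⟨m⁻¹ * y * m, (h _).mpr ?_, ?_⟩
        · have : m * (m⁻¹ * y * m) * m⁻¹ = y := by group
          rw [this]
          exact hy
        · change (m : D)⁻¹ * M.subtype y * m = x
          rw [hyx]
          group
  refine ⟨U.map M.subtype, T.map M.subtype, n, ?_, ?_, ?_, ?_, ?_, ?_, ?_, ?_, ?_⟩
  · rw [← hmap]
    exact map_mono b1
  · exact map_subtype_le U
  · exact map_subtype_le T
  · intro h
    apply b2
    rw [← hU, h]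
    exact bot_subgroupOf M
  · rw [hU, hT]
    exact ⟨b2, b3, b4, b5, b6, b7, b8, b9, b10⟩
  · ext x
    rw [mem_inf]
    constructor
    · rintro ⟨h1, h2⟩
      obtain ⟨u, hu, t, ht, hx⟩ := (b11 ⟨x, h2⟩).mp ((hn ⟨x, h2⟩).mp h1)
      have h3 : x = (u : D) * t := congrArg Subtype.val hx
      rw [h3]
      exact mul_mem_sup (mem_map.mpr ⟨u, hu, rfl⟩) (mem_map.mpr ⟨t, ht, rfl⟩)
    · intro h1
      have h2 : U.map M.subtype ⊔ T.map M.subtype = (U ⊔ T).map M.subtype :=
        (Subgroup.map_sup _ _ _).symm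
      rw [h2] at h1
      obtain ⟨m, hm, rfl⟩ := mem_map.mp h1
      refine ⟨(hn m).mpr ?_, m.2⟩
      have h3 : U ⊔ T ≤ normalizer (U : Set M) := by
        rw [sup_le_iff]
        constructor
        · intro u hu
          exact (b11 u).mpr ⟨u, hu, 1, T.one_mem, (mul_one u).symm⟩
        · intro t ht
          exact (b11 t).mpr ⟨1, U.one_mem, t, ht, (one_mul t).symm⟩
      exact h3 hm
  · rw [hU]
    exact b12
  · intro m hm x hx hx1 hmx
    obtain ⟨u, hu, rfl⟩ := mem_map.mp hx
    refine (hn ⟨m, hm⟩).mpr (b13 ⟨m, hm⟩ u hu ?_ ?_)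
    · intro h
      apply hx1
      rw [h]
      rfl
    · rw [← hmem]
      exact hmx
  · intro m hm h
    refine (hker ⟨m, hm⟩).mp (MonoidHom.mem_ker.mp (b14 ⟨m, hm⟩ fun g => ?_))
    rw [← hn]
    exact h g g.2

end Pool.Agent.PP.BN.H27
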